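import Pool.Agent.H110R3.Urn.Stmts

/-! TaskE2 of project H110-URN (helper110), by helper182. -/

namespace Pool.Agent.H182R3.UrnE2

open Pool.Agent.H110R3.Urn

theorem t : TaskE2 := by
  intro ha hb m G _ hNE
  obtain ⟨K0, κ, α1, hK0, hκ, hα1, h⟩ := ha m G hNE
  refine ⟨((m : ℝ) + 1) * K0, κ, α1, by positivity, hκ, hα1, ?_⟩
  intro α hα hE1 x hx
  -- key: for an ordered pair
  have key : ∀ i j, x i ≠ 0 → x j ≠ 0 →
      ((m : ℝ) + 1) * K0 < α * Real.log (x j) - α * Real.log (x i) →
      α * Real.log (x j) - α * Real.log (x i) < κ * α → False := by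
    intro i j hi hj h1 h2
    have hmK : (m : ℝ) * K0 < α * Real.log (x j) - α * Real.log (x i) := by
      nlinarith [hK0]
    obtain ⟨D, D', hD, hD', hDne, hD'ne, hg1, hg2, hg3⟩ :=
      hb m (Finset.univ.filter fun k => x k ≠ 0) (fun k => α * Real.log (x k)) K0 (κ * α) hK0
        i (by simpa using hi) j (by simpa using hj) hmK h2
    have hnz : ∀ k ∈ D ∪ D', x k ≠ 0 := by
      intro k hk
      rcases Finset.mem_union.1 hk with hk | hk
      · simpa using hD hk
      · simpa using hD' hk
    refine h α hα hE1 x hx D D' hDne hD'ne hnz hg1 ?_ hg3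
    intro i' hi' k hk hkn
    exact hg2 i' hi' k (by simpa using hk) hkn
  intro i j hi hj
  by_contra hcon
  push Not at hcon
  obtain ⟨h1, h2⟩ := hcon
  rcases le_total 0 (α * Real.log (x i) - α * Real.log (x j)) with h0 | h0
  · rw [abs_of_nonneg h0] at h1 h2
    exact key j i hj hi h1 h2
  · rw [abs_of_nonpos h0] at h1 h2
    exact key i j hi hj (by linarith) (by linarith)

end Pool.Agent.H182R3.UrnE2
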